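import Pool.Agent.N625.PT.X8
import Pool.Agent.Y877.SxI
import Pool.Agent.Y877.SxK

/-!
# Chen's theorem and primes `p_{q+2} + H` for random multiples `H` of a small primorial, for the random integers given by
digits

Nothing is used besides Mathlib in the statement: `∑ v ∈ range (b ^ d), (if P v then μ v else 0)` is the probability that
the random integer `v < b ^ d` with the distribution `μ` has the property `P`.
-/

set_option autoImplicit false

open Finset

namespace Pool.Agent.Results.MP_0ec542_nt.ExchangeableChenShifts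

/-- The probability, for the distribution `μ` on the words of `k` digits (the integers `v < b ^ k`), that the word begins with
the `i` digits of `u < b ^ i`. -/
noncomputable def begins (b k : ℕ) (μ : ℕ → ℝ) (i u : ℕ) : ℝ := ∑ w ∈ range (b ^ (k - i)), μ (u * b ^ (k - i) + w)

/-- `p` is a probability on the words of `k` digits in base `b`, read as integers `v < b ^ k`. There is another probability
`μ` with `p ≤ k ^ T μ` such that after every beginning `u` two different blocks `a`, `a'` of `L` digits can be exchanged: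
`p (u a w) = r p (u a' w)` for all endings `w`, with a factor `r` between `η` and `1 / η` which does not depend on `w`; and
given the beginning `u`, each of the two blocks comes next with a probability of at least `η` in the distribution `μ`.
(For `T = 0` one has `μ = p`. For the uniform distribution on a set of words `r` is `1`.) -/
structure Exchangeable (b L : ℕ) (η : ℝ) (T k : ℕ) (p : ℕ → ℝ) : Prop where
  nonneg : ∀ v, 0 ≤ p v
  sum : ∑ v ∈ range (b ^ k), p v = 1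
  dominated : ∃ μ : ℕ → ℝ, (∀ v, 0 ≤ μ v) ∧ ∑ v ∈ range (b ^ k), μ v = 1 ∧ (∀ v < b ^ k, p v ≤ (k : ℝ) ^ T * μ v) ∧
    ∀ i u : ℕ, i + L ≤ k → u < b ^ i → ∃ (a a' : ℕ) (r : ℝ), a < a' ∧ a' < b ^ L ∧ η ≤ r ∧ η * r ≤ 1 ∧
      (∀ w < b ^ (k - (i + L)), p ((b ^ L * u + a) * b ^ (k - (i + L)) + w) = r * p ((b ^ L * u + a') * b ^ (k - (i + L)) + w)) ∧
      η * begins b k μ i u ≤ begins b k μ (i + L) (b ^ L * u + a) ∧
      η * begins b k μ i u ≤ begins b k μ (i + L) (b ^ L * u + a')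

/-- `m ≥ 1` is a product of at most two primes -/
def P2 (m : ℕ) : Prop := 0 < m ∧ m.primeFactorsList.length ≤ 2

/-- the product of `1 - 1/q` over the primes `q ≤ y` -/
noncomputable def V (y : ℕ) : ℝ := ∏ q ∈ (Icc 1 y).filter Nat.Prime, (1 - 1 / (q : ℝ))

open Classical in
/-- the primes `q < 2 n` such that `2 n - q` is a product of at most two primes -/
noncomputable def Chen (n : ℕ) : Finset ℕ := (range (2 * n)).filter (fun q => q.Prime ∧ P2 (2 * n - q))

/-- the `q ∈ Q` such that `p_{q+2} + h` is prime (`p_{q+2}` is the prime number `q + 2`, counted from `p_1 = 2`) -/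
noncomputable def Good (Q : Finset ℕ) (h : ℕ) : Finset ℕ := Q.filter (fun q => (Nat.nth Nat.Prime (q + 1) + h).Prime)

/-- the multiple of the product of the primes `≤ y` given by the integers `h` and `c + κ v` -/
def Nv (y h : ℕ) (c κ : ℤ) (v : ℕ) : ℤ := ((primorial y * h : ℕ) : ℤ) * (c + κ * v)

lemma begins_sum (b k : ℕ) (μ : ℕ → ℝ) (i u : ℕ) (hi : i < k) :
    ∑ a ∈ range b, begins b k μ (i + 1) (b * u + a) = begins b k μ i u := by
  unfold begins
  obtain ⟨n, hn⟩ : ∃ n, k - i = n + 1 := ⟨k - i - 1, by omega⟩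
  have h1 : k - (i + 1) = n := by omega
  rw [h1, hn, pow_succ, mul_comm (b ^ n) b, Pool.Agent.N625.PT.sum_blocks b (b ^ n)]
  apply sum_congr rfl
  intro a _
  apply sum_congr rfl
  intro w _
  congr 1
  ring

lemma flex_of {b L T k : ℕ} {η : ℝ} {p : ℕ → ℝ} (hp : Exchangeable b L η T k p) : Pool.Agent.N625.PT.Flex b L η T k p := by
  obtain ⟨h0, h1, μ, m0, m1, m2, m3⟩ := hp
  have hT : (0 : ℝ) ≤ (k : ℝ) ^ T := by positivity
  have hb0 : ∀ i u, 0 ≤ begins b k μ i u := fun i u => sum_nonneg fun w _ => m0 _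
  refine ⟨h0, h1, fun i u => (k : ℝ) ^ T * begins b k μ i u, fun i u => mul_nonneg hT (hb0 i u), ?_, ?_, ?_, ?_⟩
  · intro v hv
    refine (m2 v hv).trans (le_of_eq ?_)
    unfold begins
    simp
  · intro i hi u _
    simp only
    rw [← mul_sum, begins_sum b k μ i u hi]
  · simp only
    have : begins b k μ 0 0 = 1 := by
      unfold begins
      simpa using m1
    rw [this, mul_one]
  · intro i u hi hu
    obtain ⟨a, a', r, q1, q2, q3, q4, q5, q6, q7⟩ := m3 i u hi hu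
    refine ⟨a, a', r, q1, q2, q3, q4, q5, ?_, ?_⟩
    · simp only
      calc η * ((k : ℝ) ^ T * begins b k μ i u) = (k : ℝ) ^ T * (η * begins b k μ i u) := by ring
        _ ≤ _ := mul_le_mul_of_nonneg_left q6 hT
    · simp only
      calc η * ((k : ℝ) ^ T * begins b k μ i u) = (k : ℝ) ^ T * (η * begins b k μ i u) := by ring
        _ ≤ _ := mul_le_mul_of_nonneg_left q7 hT

theorem nth_inj : Function.Injective (Nat.nth Nat.Prime) := Nat.nth_injective Nat.infinite_setOfPred_prime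

theorem chen_sub (n : ℕ) : ((Ioc 0 (2 * n)).filter (fun p : ℕ => p.Prime ∧ ((2 * n : ℕ) : ℤ) - p ≠ 0 ∧
    (((2 * n : ℕ) : ℤ) - p).natAbs.primeFactorsList.length ≤ 2)).card ≤ (Chen n).card := by
  classical
  apply card_le_card
  intro p hp
  rw [mem_filter, mem_Ioc] at hp
  obtain ⟨⟨_, h1⟩, h2, h3, h4⟩ := hp
  have h5 : p < 2 * n := by omega
  unfold Chen
  rw [mem_filter, mem_range]
  have h6 : (((2 * n : ℕ) : ℤ) - p).natAbs = 2 * n - p := by omega
  rw [h6] at h4
  exact ⟨h5, h2, (by omega : 0 < 2 * n - p), h4⟩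

theorem chen_low : ∃ c : ℝ, 0 < c ∧ ∃ n₀ : ℕ, ∀ n : ℕ, n₀ ≤ n → c * n / Real.log n ^ 2 ≤ ((Chen n).card : ℝ) := by
  obtain ⟨c, hc, X0, hX⟩ := Pool.Agent.Y877.SX.chen_cnt
  refine ⟨c / 2, by positivity, max X0 3, fun n hn => ?_⟩
  have b1 : X0 ≤ n := (le_max_left _ _).trans hn
  have b2 : 3 ≤ n := (le_max_right _ _).trans hn
  have h1 := hX (2 * n) (by omega) ((2 * n : ℕ) : ℤ) (by exact_mod_cast (by omega : 2 * n ≠ 0)) (by
    rw [abs_of_nonneg (by positivity)]) (by exact_mod_cast even_two_mul n)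
  have h2 : (((Ioc 0 (2 * n)).filter (fun p : ℕ => p.Prime ∧ ((2 * n : ℕ) : ℤ) - p ≠ 0 ∧
    (((2 * n : ℕ) : ℤ) - p).natAbs.primeFactorsList.length ≤ 2)).card : ℝ) ≤ (Chen n).card := by exact_mod_cast chen_sub n
  refine le_trans ?_ (h1.trans h2)
  have hnr : (3 : ℝ) ≤ n := by exact_mod_cast b2
  have hL : 0 < Real.log n := Real.log_pos (by linarith)
  have h3 : Real.log ((2 * n : ℕ) : ℝ) ≤ 2 * Real.log n := by
    push_cast
    have := Real.log_le_log (by linarith : (0 : ℝ) < 2 * n) (by nlinarith : (2 : ℝ) * n ≤ n ^ 2)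
    rwa [Real.log_pow, Nat.cast_ofNat] at this
  have h4 : 0 < Real.log ((2 * n : ℕ) : ℝ) := Real.log_pos (by push_cast; linarith)
  rw [div_le_div_iff₀ (by positivity) (by positivity)]
  have h5 : Real.log ((2 * n : ℕ) : ℝ) ^ 2 ≤ (2 * Real.log n) ^ 2 := pow_le_pow_left₀ h4.le h3 2
  have h6 : 0 ≤ c * n := by positivity
  push_cast at h5 ⊢
  nlinarith

/-- There is an absolute constant `c₀ > 0` with the following properties. Let `v < b ^ d` be a random integer whose
distribution `μ` has exchangeable blocks of digits, let `y` be between `K₀ log d` and `K₁ log d`, `M` the product of the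
primes `≤ y`, and `n` ANY integer with `b ^ d ≤ n d ^ C`, `n ≤ b ^ d d ^ C`. Let `|c| ≤ B b ^ d`, `1 ≤ h ≤ d ^ J`,
`H = M h (c + κ v)`. (1) For every set `Q` of at least `n / d ^ A` integers `q < 2 n` the probability that `H ≥ 0` and
`p_{q+2} + H` is prime for fewer than `(1 - ε) #Q / (V y log b ^ d)` elements `q` of `Q` is at most `ε`; (2) there are at
least `c₀ n / log ^ 2 n` primes `q < 2 n` with `2 n - q` a product of at most two primes, and the conclusion of (1) holds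
for the set of all these `q`. -/
theorem result : ∃ c₀ : ℝ, 0 < c₀ ∧ ∀ (b L : ℕ), 2 ≤ b → 1 ≤ L → ∀ η : ℝ, 0 < η → η ≤ 1 → ∀ (T₀ : ℕ) (κ : ℤ), κ ≠ 0 →
    ∀ (B J A C : ℕ) (ε : ℝ), 0 < ε → ε ≤ 1 → ∃ K₀ : ℕ, ∀ K₁ : ℕ, ∃ d₀ : ℕ, ∀ d : ℕ, d₀ ≤ d →
    ∀ μ : ℕ → ℝ, Exchangeable b L η T₀ d μ → ∀ y : ℕ, K₀ * Real.log d ≤ y → y ≤ K₁ * Real.log d →
    ∀ c : ℤ, |c| ≤ B * (b : ℤ) ^ d → ∀ h : ℕ, 1 ≤ h → h ≤ d ^ J →
    ∀ n : ℕ, b ^ d ≤ n * d ^ C → n ≤ b ^ d * d ^ C →
      (∀ Q : Finset ℕ, Q ⊆ range (2 * n) → (n : ℝ) ≤ Q.card * (d : ℝ) ^ A →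
        ∑ v ∈ range (b ^ d), (if 0 ≤ Nv y h c κ v ∧ ((Good Q (Nv y h c κ v).toNat).card : ℝ) <
          (1 - ε) * (Q.card / (V y * (d * Real.log b))) then μ v else 0) ≤ ε) ∧
      c₀ * n / Real.log n ^ 2 ≤ ((Chen n).card : ℝ) ∧
      ∑ v ∈ range (b ^ d), (if 0 ≤ Nv y h c κ v ∧ ((Good (Chen n) (Nv y h c κ v).toNat).card : ℝ) <
          (1 - ε) * ((Chen n).card / (V y * (d * Real.log b))) then μ v else 0) ≤ ε := by
  classical
  obtain ⟨c₀, hc₀, m1, hm1⟩ := chen_low
  refine ⟨c₀, hc₀, ?_⟩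
  intro b L hb hL η hη0 hη1 T₀ κ hκ B J A C ε hε hε1
  obtain ⟨K₀, h0⟩ := Pool.Agent.N625.PT.dense_shift b L hb hL η hη0 hη1 κ hκ T₀ B J (max A 5 + 4) (C + 4) ε hε hε1
  refine ⟨K₀, fun K₁ => ?_⟩
  obtain ⟨k₀, h0⟩ := h0 K₁
  obtain ⟨n4, hn4⟩ := Pool.Agent.Y877.SX.nth_le_log
  obtain ⟨k₁, h1⟩ := Pool.Agent.N625.PT.X_large b C hb
  obtain ⟨k₂, h2⟩ := Pool.Agent.N625.PT.log_X b C hb
  obtain ⟨k₃, h3⟩ := exists_nat_ge (1 / c₀)
  refine ⟨max (max k₀ k₁) (max k₂ (max (max n4 (max m1 k₃)) 2)), fun d hd μ hμ y hy1 hy2 c hc h hh1 hhJ n hn1 hn2 => ?_⟩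
  have b0 : 2 ≤ d := by omega
  have hdr : (1 : ℝ) ≤ d := by exact_mod_cast (by omega : 1 ≤ d)
  have b1 := h1 d (by omega) n hn1
  have b2 := h2 d (by omega) n hn2
  have b3 : 1 / c₀ ≤ d := h3.trans (by exact_mod_cast (by omega : k₃ ≤ d))
  have hln : 0 < Real.log n := Real.log_pos (by exact_mod_cast (by omega : 1 < n))
  have hn0 : (0 : ℝ) ≤ n := Nat.cast_nonneg n
  have g1 : b ^ d ≤ (n * d ^ 4) * d ^ (C + 4) := by
    refine hn1.trans ?_
    rw [mul_assoc, ← pow_add]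
    exact Nat.mul_le_mul_left _ (Nat.pow_le_pow_right (by omega) (by omega))
  have g2 : n * d ^ 4 ≤ b ^ d * d ^ (C + 4) := by
    calc n * d ^ 4 ≤ (b ^ d * d ^ C) * d ^ 4 := Nat.mul_le_mul_right _ hn2
      _ = _ := by rw [mul_assoc, ← pow_add]
  have hlow := hm1 n (by omega)
  have main : ∀ Q : Finset ℕ, Q ⊆ range (2 * n) → (n : ℝ) ≤ Q.card * (d : ℝ) ^ (max A 5) →
        ∑ v ∈ range (b ^ d), (if 0 ≤ Nv y h c κ v ∧ ((Good Q (Nv y h c κ v).toNat).card : ℝ) <
          (1 - ε) * (Q.card / (V y * (d * Real.log b))) then μ v else 0) ≤ ε := by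
    intro Q hQ hQA
    have g3 : ((n * d ^ 4 : ℕ) : ℝ) ≤ Q.card * (d : ℝ) ^ (max A 5 + 4) := by
      push_cast
      calc (n : ℝ) * (d : ℝ) ^ 4 ≤ (Q.card * (d : ℝ) ^ (max A 5)) * (d : ℝ) ^ 4 := mul_le_mul_of_nonneg_right hQA (by positivity)
        _ = _ := by rw [mul_assoc, ← pow_add]
    refine le_trans (le_of_eq ?_) (h0 d (by omega) μ (flex_of hμ) y hy1 hy2 c hc h hh1 hhJ (n * d ^ 4) g1 g2 Q (fun q => Nat.nth Nat.Prime (q + 1))
      (fun a _ b _ hab => by
        have := nth_inj hab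
        omega)
      (fun q hq => ⟨Nat.prime_nth_prime _, by
        have q1 := hn4 n (by omega) (q + 1) (by
        have := mem_range.1 (hQ hq)
        omega)
        have q2 : n * Real.log n ^ 2 ≤ ((n * d ^ 4 : ℕ) : ℝ) := by
          push_cast
          apply mul_le_mul_of_nonneg_left _ hn0
          calc Real.log n ^ 2 ≤ ((d : ℝ) ^ 2) ^ 2 := pow_le_pow_left₀ hln.le b2 _
            _ = _ := by ring
        exact_mod_cast q1.trans q2⟩) g3)
    apply sum_congr rfl
    intro v _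
    congr!
  refine ⟨fun Q hQ hQA => main Q hQ (hQA.trans ?_), hlow, main (Chen n) (filter_subset _ _) ?_⟩
  · apply mul_le_mul_of_nonneg_left _ (Nat.cast_nonneg _)
    exact pow_le_pow_right₀ hdr (le_max_left _ _)
  · rw [div_le_iff₀ (by positivity)] at hlow
    rw [div_le_iff₀ hc₀] at b3
    calc (n : ℝ) ≤ (d * c₀) * n := by nlinarith
      _ = d * (c₀ * n) := by ring
      _ ≤ d * ((Chen n).card * Real.log n ^ 2) := mul_le_mul_of_nonneg_left hlow (by linarith)
      _ ≤ d * ((Chen n).card * ((d : ℝ) ^ 2) ^ 2) := by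
          apply mul_le_mul_of_nonneg_left _ (by linarith)
          apply mul_le_mul_of_nonneg_left _ (Nat.cast_nonneg _)
          exact pow_le_pow_left₀ hln.le b2 _
      _ = (Chen n).card * (d : ℝ) ^ 5 := by ring
      _ ≤ _ := by
          apply mul_le_mul_of_nonneg_left _ (Nat.cast_nonneg _)
          exact pow_le_pow_right₀ hdr (le_max_right _ _)

end Pool.Agent.Results.MP_0ec542_nt.ExchangeableChenShifts
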