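import Pool.Agent.N837.LP.GenW

set_option autoImplicit false

/-!
# A positive proportion of the even numbers miss the first `A log n` primes `q` with `p_{q+2} + 2` prime

For every `A ≥ 1` and `0 < η ≤ 1`, for every large `X` a positive proportion of the even `N = 2 n` in
`(X, X + X ^ η]` is such that `N - q` is composite (with a prime factor at most `X ^ (η δ)`) for each
prime `q < N` with `p_{q+2} + 2` prime which has at most `A log X` smaller primes with this property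
(`p_k = Nat.nth Nat.Prime (k - 1)`).
-/

namespace Pool.Agent.Results.MP_0ec542_nt.FrequentLateIndices

open Classical in
theorem result (δ : ℝ) (hδ : 0 < δ) :
    ∃ C : ℝ, 0 < C ∧ ∀ A η : ℝ, 1 ≤ A → 0 < η → η ≤ 1 →
    ∃ X₀ : ℝ, ∀ X : ℝ, X₀ ≤ X →
    X ^ η * Real.exp (-Real.exp (C * A / η)) ≤
      (({N : ℕ | Even N ∧ X < N ∧ (N : ℝ) ≤ X + X ^ η ∧
        ∀ q : ℕ, q.Prime → (Nat.nth Nat.Prime (q + 1) + 2).Prime → q < N →
          (((Finset.range q).filter
            (fun t : ℕ => t.Prime ∧ (Nat.nth Nat.Prime (t + 1) + 2).Prime)).card : ℝ) ≤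
              A * Real.log X →
          ∃ l : ℕ, l.Prime ∧ (l : ℝ) ≤ X ^ (η * δ) ∧ l ∣ N - q ∧ l < N - q}).ncard : ℝ) := by
  obtain ⟨C, hC, h⟩ := Pool.Agent.N837.LP.genFirst δ hδ
  refine ⟨C, hC, fun A η hA hη hη1 => ?_⟩
  obtain ⟨X₀, hX₀⟩ := h A η hA hη hη1
  refine ⟨X₀, fun X hX => ?_⟩
  have h1 := hX₀ X hX (fun t : ℕ => t.Prime ∧ (Nat.nth Nat.Prime (t + 1) + 2).Prime) 0
  refine h1.trans (Nat.cast_le.2 (Set.ncard_le_ncard ?_ ?_))
  · intro n hn
    obtain ⟨q1, q2, q3, q4⟩ := hn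
    refine ⟨?_, q1, q2, fun s hs hs2 hsn hc => q4 s ⟨hs, hs2⟩ hsn (by convert hc)⟩
    have e1 : (n : ℤ) % 2 = 0 := by simpa using q3
    have e2 : n % 2 = 0 := by omega
    exact Nat.even_iff.2 e2
  · apply (Set.finite_Iic ⌊X + X ^ η⌋₊).subset
    intro a ha
    obtain ⟨_, _, h2, _⟩ := ha
    rw [Set.mem_Iic]
    exact Nat.le_floor h2

end Pool.Agent.Results.MP_0ec542_nt.FrequentLateIndices
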