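import Mathlib
import Pool.Agent.N9.AD.Ea2
import Pool.Agent.N9.AD.Model

/-!
# Goldbach with a twin condition on the index, in all sieved sequential random models

The integers are decided one after the other; the multiples of the primes of a finite set `Q` are
never chosen and the conditional probability of choosing an integer `n + 1` which is not such a
multiple, given the decisions up to `n`, is asymptotic to `∏_{p ∈ Q} (1 - 1 / p)⁻¹ / log n`, almost
surely. No independence and no rate of convergence are assumed. In every such model, almost surely,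
every large `N` (every large even `N` if `2 ∈ Q`) is a sum of chosen integers `q'`, `q` such that the
`(q + 2)`-th chosen integer `s` is the lower member of a twin, with `s ≤ K (log N)² (log log N)³`; the
number of the representations with `s ≤ x` is asymptotically the expected one, uniformly in `x`.

Method (`Pool/Agent/N9/AD`): an exponential supermartingale (helper893) gives the law of predictable
sums along any decreasing sequence of integers, uniformly. It is used for `N - q`, the weight being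
whether `q` is chosen and `q + 2` is the index of a twin, and for `s + 2`; the chosen integers with
index in an adapted set are equidistributed in the residue classes coprime to the sieved primes.

The notion of a sequential model and the theorem on Hawkins' sieve are from the team files by
helper528 (`Pool/Agent/R528/RM`) and helper740 (`Pool/Agent/N740/HK`).
-/

set_option autoImplicit false

open MeasureTheory Filter Set
open scoped Topology

namespace Pool.Agent.Results.MP_0ec542_nt.SievedModels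

variable {Ω : Type}

/-- `A n` is the event that `n` is chosen; adapted to `ℱ`; multiples of the primes in `Q` are not
chosen; the conditional probability of `A (n + 1)` given `ℱ n`, times `log n`, tends almost surely to
`∏_{p ∈ Q} (1 - 1 / p)⁻¹` along the `n` such that no `p ∈ Q` divides `n + 1` -/
def SievedModel [m : MeasurableSpace Ω] (μ : Measure Ω) (ℱ : Filtration ℕ m) (A : ℕ → Set Ω)
    (Q : Finset ℕ) : Prop :=
  (∀ n, MeasurableSet[ℱ n] (A n)) ∧ (∀ n, (∃ p ∈ Q, p ∣ n) → A n = ∅) ∧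
  ∀ᵐ ω ∂μ, Tendsto (fun n : ℕ => (μ[(A (n + 1)).indicator (fun _ => (1 : ℝ)) | ℱ n]) ω * Real.log n)
    (atTop ⊓ 𝓟 {n : ℕ | ∀ p ∈ Q, ¬ p ∣ n + 1}) (𝓝 (∏ p ∈ Q, (1 - 1 / (p : ℝ))⁻¹))

open Classical in
/-- The random sieve of Hawkins: `2` is chosen, and given the decisions up to `n ≥ 2` the number
`n + 1` is chosen with probability `∏ (1 - 1 / h)`, the product over the chosen `2 ≤ h ≤ n`. -/
def HawkinsSieve [m : MeasurableSpace Ω] (μ : Measure Ω) (ℱ : Filtration ℕ m) (A : ℕ → Set Ω) : Prop :=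
  (∀ n, MeasurableSet[ℱ n] (A n)) ∧ A 2 = univ ∧
  ∀ n, 2 ≤ n → μ[(A (n + 1)).indicator (fun _ => (1 : ℝ)) | ℱ n] =ᵐ[μ]
    fun ω => ∏ h ∈ Finset.Icc 2 n, if ω ∈ A h then 1 - 1 / (h : ℝ) else 1

/-- `π(n)` in the model: the number of the chosen integers in `[1, n]`; a chosen `s` is the
`π(s)`-th chosen integer -/
noncomputable def pi (A : ℕ → Set Ω) (ω : Ω) (n : ℕ) : ℕ := {i : ℕ | 1 ≤ i ∧ i ≤ n ∧ ω ∈ A i}.ncard

/-- the number of the `1 ≤ s ≤ x` such that `s` and `s + 2` are chosen and, `q = π(s) - 2` being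
positive, `q` and `N - q` are chosen -/
noncomputable def reps (A : ℕ → Set Ω) (ω : Ω) (N x : ℕ) : ℕ :=
  {s : ℕ | 1 ≤ s ∧ s ≤ x ∧ (ω ∈ A s ∧ ω ∈ A (s + 2) ∧ 3 ≤ pi A ω s ∧ ω ∈ A (pi A ω s - 2) ∧
    ω ∈ A (N - (pi A ω s - 2)))}.ncard

/-- the local density of the binary Goldbach problem at the primes of `Q` -/
noncomputable def sing (Q : Finset ℕ) (N : ℕ) : ℝ :=
  ∏ p ∈ Q, (1 - (if p ∣ N then 1 else 2 : ℝ) / p) / (1 - 1 / (p : ℝ)) ^ 2

/-- the local density of the twins: with `W` the product of the primes in `Q`, the proportion of the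
residues `b` modulo `W` with `b (b + 2)` coprime to `W`, divided by `(φ(W) / W) ^ 2` -/
noncomputable def twin (Q : Finset ℕ) : ℝ :=
  ({b : ℕ | b < ∏ p ∈ Q, p ∧ IsCoprime ((b : ℤ) * (b + 2)) ((∏ p ∈ Q, p : ℕ) : ℤ)}.ncard /
      ((∏ p ∈ Q, p : ℕ) : ℝ)) * (((∏ p ∈ Q, p : ℕ) : ℝ) / Nat.totient (∏ p ∈ Q, p)) ^ 2

open Pool.Agent.R528.RM Pool.Agent.N9.AD

lemma pi_eq (A : ℕ → Set Ω) (ω : Ω) (n : ℕ) : pi A ω n = cnt A ω n := cnt_ncard ω n

lemma reps_eq (A : ℕ → Set Ω) (ω : Ω) (N x : ℕ) :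
    (reps A ω N x : ℝ) = ∑ s ∈ Finset.Icc 1 x, (if 3 ≤ cnt A ω s then In A s ω * In A (s + 2) ω *
          (In A (cnt A ω s - 2) ω * In A (N - (cnt A ω s - 2)) ω) else 0) := by
  unfold reps
  apply ncard_sum (fun s => ω ∈ A s ∧ ω ∈ A (s + 2) ∧ 3 ≤ pi A ω s ∧ ω ∈ A (pi A ω s - 2) ∧
    ω ∈ A (N - (pi A ω s - 2)))
    (fun s => if 3 ≤ cnt A ω s then In A s ω * In A (s + 2) ω *
          (In A (cnt A ω s - 2) ω * In A (N - (cnt A ω s - 2)) ω) else 0)
  · rintro s ⟨h1, h2, h0, h3, h4⟩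
    rw [pi_eq] at h0 h3 h4
    have e1 : In A s ω = 1 := indicator_of_mem h1 _
    have e2 : In A (s + 2) ω = 1 := indicator_of_mem h2 _
    have e3 : In A (cnt A ω s - 2) ω = 1 := indicator_of_mem h3 _
    have e4 : In A (N - (cnt A ω s - 2)) ω = 1 := indicator_of_mem h4 _
    simp only [e1, e2, e3, e4, mul_one, if_pos h0]
  · intro s h
    rw [pi_eq] at h
    by_cases h0 : 3 ≤ cnt A ω s
    · simp only [if_pos h0]
      by_cases h1 : ω ∈ A s
      · by_cases h2 : ω ∈ A (s + 2)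
        · by_cases h3 : ω ∈ A (cnt A ω s - 2)
          · have e4 : In A (N - (cnt A ω s - 2)) ω = 0 :=
              indicator_of_notMem (fun h4 => h ⟨h1, h2, h0, h3, h4⟩) _
            simp only [e4, mul_zero]
          · have e3 : In A (cnt A ω s - 2) ω = 0 := indicator_of_notMem h3 _
            simp only [e3, mul_zero, zero_mul]
        · have e2 : In A (s + 2) ω = 0 := indicator_of_notMem h2 _
          simp only [e2, mul_zero, zero_mul]
      · have e1 : In A s ω = 0 := indicator_of_notMem h1 _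
        simp only [e1, zero_mul]
    · simp only [if_neg h0]

lemma ar (n x s t : ℕ) (hx : x ≤ n / 4) (hs : s ≤ x) (ht : t ≤ s) : t - 2 ≤ n := by
  omega

lemma ar2 (t : ℕ) (h : 3 ≤ t) : t - 2 + 2 = t := by omega

end Pool.Agent.Results.MP_0ec542_nt.SievedModels

open Pool.Agent.Results.MP_0ec542_nt.SievedModels Pool.Agent.R528.RM Pool.Agent.N9.AD

/-- Hawkins' sieve is a sieved model with `Q = ∅`. In every sieved model: (1) almost surely for every
`ε > 0` there is a `K` such that for all large `N` and all `2 ≤ x ≤ N / 4` the number of the `s ≤ x`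
with `s`, `s + 2`, `q = π(s) - 2 ≥ 1` and `N - q` chosen differs from `𝔖(N) T x / (log³ x log N)` by
at most `ε x / (log³ x log N) + K log N`; (2) almost surely, for some `K` every large `N`, if
`2 ∈ Q` every large even `N`, is a sum of chosen `q'`, `q` such that the `(q + 2)`-th chosen integer
`s` and `s + 2` are chosen, with `s ≤ K (log N)² (log log N)³`. -/
theorem Pool.Agent.Results.MP_0ec542_nt.SievedModels.result
    {Ω : Type} [m : MeasurableSpace Ω] (μ : Measure Ω) [IsProbabilityMeasure μ]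
    (ℱ : Filtration ℕ m) (A : ℕ → Set Ω) :
    (HawkinsSieve μ ℱ A → SievedModel μ ℱ A ∅) ∧
    (∀ Q : Finset ℕ, (∀ p ∈ Q, p.Prime) → SievedModel μ ℱ A Q →
      (∀ᵐ ω ∂μ, ∀ ε : ℝ, 0 < ε → ∃ K : ℝ, ∀ᶠ N : ℕ in atTop, ∀ x : ℕ, 2 ≤ x → 4 * x ≤ N →
        |(reps A ω N x : ℝ) - sing Q N * twin Q * (x / (Real.log x ^ 3 * Real.log N))| ≤
          ε * (x / (Real.log x ^ 3 * Real.log N)) + K * Real.log N) ∧
      (∀ᵐ ω ∂μ, ∃ K : ℝ, ∀ᶠ N : ℕ in atTop, (2 ∉ Q ∨ Even N) → ∃ q' q s : ℕ, N = q' + q ∧ 1 ≤ q ∧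
        ω ∈ A q' ∧ ω ∈ A q ∧ ω ∈ A s ∧ pi A ω s = q + 2 ∧ ω ∈ A (s + 2) ∧
        (s : ℝ) ≤ K * Real.log N ^ 2 * Real.log (Real.log N) ^ 3)) := by
  classical
  refine ⟨hawkins μ ℱ A, ?_⟩
  rintro Q hQ ⟨hA, hcop, hd⟩
  have hlaw := oc_law (μ := μ) hA Q hQ hcop hd
  have hgc : ∀ N, ∏ p ∈ Q, p ≤ N → (((∏ p ∈ Q, p : ℕ) : ℝ) / Nat.totient (∏ p ∈ Q, p)) *
      (((gcl (∏ p ∈ Q, p) N).card : ℝ) / Nat.totient (∏ p ∈ Q, p)) = singQ Q N :=
    fun N hN => gcl_card Q hQ hN
  have hsb : ∀ N, (2 ∉ Q ∨ Even N) → 1 / ((∏ p ∈ Q, p : ℕ) : ℝ) ≤ singQ Q N :=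
    fun N hN => (singQ_bounds Q hQ N).2.2 hN
  set W := ∏ p ∈ Q, p with hWdef
  have hW : 0 < W := Finset.prod_pos fun q hq => (hQ q hq).pos
  have hWR : (0 : ℝ) < W := by exact_mod_cast hW
  have hφR : (0 : ℝ) < Nat.totient W := by exact_mod_cast Nat.totient_pos.2 hW
  have hβ : (0 : ℝ) < ((Finset.range W).filter (fun b => Nat.Coprime b W ∧
    Nat.Coprime (b + 2) W)).card := by exact_mod_cast beta_pos hW
  have htwin : twin Q = (((((Finset.range W).filter (fun b => Nat.Coprime b W ∧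
    Nat.Coprime (b + 2) W)).card : ℕ) : ℝ) / W) * ((W : ℝ) / Nat.totient W) ^ 2 := by
    unfold twin
    rw [beta_eq]
  have hpos : 0 < twin Q := by
    rw [htwin]
    positivity
  have hconst : ∀ N, W ≤ N → ((W : ℝ) / Nat.totient W) ^ 1 *
        (((gcl W N).card : ℝ) * (((W : ℝ) / Nat.totient W) *
          ((((Finset.range W).filter (fun b => Nat.Coprime b W ∧
          Nat.Coprime (b + 2) W)).card : ℝ) * (1 / (Nat.totient W : ℝ) / Nat.totient W)))) =
          sing Q N * twin Q := by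
    intro N hN
    have h1 := hgc N hN
    have h2 : sing Q N = singQ Q N := rfl
    rw [h2, ← h1, htwin]
    field_simp
  have hlaw2 : ∀ᵐ ω ∂μ, ∀ ε : ℝ, 0 < ε → ∃ K : ℝ, 0 < K ∧ ∀ᶠ N : ℕ in atTop, ∀ x : ℕ, 2 ≤ x → x ≤ N / 4 →
        |(reps A ω N x : ℝ) - sing Q N * twin Q * (x / (Real.log x ^ 3 * Real.log N ^ 1))| ≤
          ε * (x / (Real.log x ^ 3 * Real.log N ^ 1)) + K * Real.log N := by
    filter_upwards [hlaw] with ω hω ε hε
    obtain ⟨K, hK0, hK⟩ := hω ε hε
    refine ⟨K, hK0, ?_⟩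
    filter_upwards [hK, eventually_ge_atTop W] with n hn hn1 x hx2 hx
    have h1 := hn x hx2 hx
    rw [hconst n hn1] at h1
    rw [reps_eq]
    exact h1
  refine ⟨?_, ?_⟩
  · filter_upwards [hlaw2] with ω hω ε hε
    obtain ⟨K, _, hK⟩ := hω ε hε
    refine ⟨K, ?_⟩
    filter_upwards [hK] with n hn x hx2 hx
    have h1 := hn x hx2 (by omega)
    rw [pow_one] at h1
    exact h1
  · filter_upwards [hlaw2] with ω hω
    obtain ⟨K, hK0, hK⟩ := fin_least (fun n x => (reps A ω n x : ℝ))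
      (fun N => sing Q N * twin Q) (fun n => n / 4) 1 3 (1 / W * twin Q) (by positivity)
      (fun N => 2 ∉ Q ∨ Even N)
      (by
        filter_upwards [eventually_ge_atTop 0] with N _ hN
        exact mul_le_mul_of_nonneg_right (hsb N hN) hpos.le)
      (by
        have h2 := (isLittleO_log_rpow_rpow_atTop ((3 : ℕ) : ℝ) (zero_lt_one)).bound
          (show (0 : ℝ) < 1 / 8 by norm_num)
        filter_upwards [tendsto_natCast_atTop_atTop.eventually h2, eventually_ge_atTop 10] with N g1 g2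
        have hN : (10 : ℝ) ≤ N := by exact_mod_cast g2
        have g3 : 0 ≤ Real.log (N : ℝ) := Real.log_natCast_nonneg N
        rw [Real.norm_eq_abs, Real.norm_eq_abs, abs_of_nonneg (Real.rpow_nonneg g3 _),
          abs_of_nonneg (Real.rpow_nonneg (by linarith) _), Real.rpow_natCast, Real.rpow_one] at g1
        have g4 : (N : ℝ) ≤ 8 * (N / 4 : ℕ) := by
          have : N ≤ 8 * (N / 4) := by omega
          exact_mod_cast this
        calc Real.log (N : ℝ) ^ (1 + 2) ≤ 1 / 8 * N := g1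
          _ ≤ (N / 4 : ℕ) := by linarith)
      hω
    refine ⟨K, ?_⟩
    filter_upwards [hK] with n hn hpar
    obtain ⟨x, hx2, hxX, hxK, hpos'⟩ := hn hpar
    have hne : {s : ℕ | 1 ≤ s ∧ s ≤ x ∧ (ω ∈ A s ∧ ω ∈ A (s + 2) ∧ 3 ≤ pi A ω s ∧
        ω ∈ A (pi A ω s - 2) ∧ ω ∈ A (n - (pi A ω s - 2)))}.Nonempty := by
      rw [Set.nonempty_iff_ne_empty]
      intro h
      have h1 : reps A ω n x = 0 := by
        unfold reps
        rw [h, Set.ncard_empty]
      rw [h1, Nat.cast_zero] at hpos'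
      exact lt_irrefl _ hpos'
    obtain ⟨s, hs1, hsx, q1, q2, q0, q3, q4⟩ := hne
    have h1 : pi A ω s ≤ s := by
      rw [pi_eq]
      exact cnt_le ω s
    have h3 := ar n x s (pi A ω s) hxX hsx h1
    refine ⟨n - (pi A ω s - 2), pi A ω s - 2, s, (Nat.sub_add_cancel h3).symm, Nat.le_sub_of_add_le q0,
      q4, q3, q1, (ar2 _ q0).symm, q2, ?_⟩
    have : (s : ℝ) ≤ x := by exact_mod_cast hsx
    exact this.trans hxK
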